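import Mathlib
import Pool.Agent.Lib.MP_7a4764_an.H79Rank

set_option autoImplicit false

namespace Pool.Agent.Results.MP_7a4764_an.Dichotomy

open Polynomial Filter Topology

/-- A real polynomial is real-rooted if it is zero or all its complex zeros are real. -/
def RealRooted (f : ℝ[X]) : Prop := f = 0 ∨ ∀ z : ℂ, aeval z f = 0 → z.im = 0

open Pool.Agent.Lib.MP_7a4764_an Pool.Agent.Lib.MP_7a4764_an.H79

/-- A linear map sends all real-rooted polynomials with nonnegative coefficients to real-rooted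
polynomials if and only if it has the form `α f • p + β f • q` with `p + i q` free of zeros in
the upper half plane, or is a pointwise limit of translates of maps with finite nonnegative matrix whose
values at the polynomials `X ^ a * (X + v) ^ b` are real-rooted. -/
theorem result (T : ℝ[X] →ₗ[ℝ] ℝ[X]) :
    (∀ f : ℝ[X], RealRooted f → (∀ k, 0 ≤ f.coeff k) → RealRooted (T f)) ↔
    ((∃ (α β : ℝ[X] →ₗ[ℝ] ℝ) (p q : ℝ[X]),
        (∀ z : ℂ, 0 < z.im → aeval z p + Complex.I * aeval z q ≠ 0) ∧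
        ∀ f : ℝ[X], T f = α f • p + β f • q) ∨
      ∃ (S : ℕ → ℝ[X] →ₗ[ℝ] ℝ[X]) (μ : ℕ → ℝ),
        (∀ m k : ℕ, m < k → S m (X ^ k) = 0) ∧
        (∀ m k j : ℕ, 0 ≤ (S m (X ^ k)).coeff j) ∧
        (∀ (m a b : ℕ) (v : ℝ), 0 < v → RealRooted (S m (X ^ a * (X + C v) ^ b))) ∧
        ∀ (f : ℝ[X]) (z : ℂ),
          Tendsto (fun m => aeval (z - (μ m : ℂ)) (S m f)) atTop (𝓝 (aeval z (T f)))) := by
  constructor
  · intro h
    have hT : ∀ f : ℝ[X], f.Splits → (∀ k, 0 ≤ f.coeff k) → (T f).Splits :=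
      fun f hf hc => splits_iff_im.2 (h f (splits_iff_im.1 hf) hc)
    by_cases h0 : ∀ f, (T f).Splits
    · exact Or.inl (exists_form T h0)
    · obtain ⟨f₀, hf₀⟩ := not_forall.1 h0
      obtain ⟨S, μ, h4, h1, h2, h3⟩ := approx T hT hf₀
      refine Or.inr ⟨S, μ, h4, h1, fun m a b v hv => splits_iff_im.1 (h2 m _ ?_ ?_), h3⟩
      · exact (Splits.X_pow a).mul ((Splits.X_add_C v).pow b)
      · refine coeff_mul_nonneg (coeff_pow_nonneg (fun k => ?_) a)
          (coeff_pow_nonneg (coeff_X_add_C_nonneg hv.le) b)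
        simpa using coeff_X_add_C_nonneg le_rfl k
  · rintro (⟨α, β, p, q, h1, h2⟩ | ⟨S, μ, -, h1, h2, h3⟩) f hf hc
    · rw [h2]
      exact splits_iff_im.1 (splits_comb h1 _ _)
    · refine splits_iff_im.1 (splits_of_tendsto (l := atTop)
        (p := fun m => taylor (-μ m) (S m f)) (Eventually.of_forall fun m => ?_) fun z => ?_)
      · exact (splits_of_nonneg (S m) (h1 m) (fun a b v hv => splits_iff_im.2 (h2 m a b v hv))
          (splits_iff_im.2 hf) hc).taylor _
      · refine (h3 f z).congr fun m => ?_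
        rw [taylor_apply, aeval_comp]
        simp [sub_eq_add_neg]

end Pool.Agent.Results.MP_7a4764_an.Dichotomy
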