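import Mathlib
import Pool.Agent.Results.MP_7a4764_an.Dichotomy
import Pool.Agent.Variants.MP_7a4764_an.TestFamily
import Pool.Agent.Lib.MP_7a4764_an.H60NoSymbol

set_option autoImplicit false

namespace Pool.Agent.Results.MP_7a4764_an.Characterization

open Polynomial Filter Topology

/-- A real polynomial is real-rooted if it is zero or all its complex zeros are real. -/
def RealRooted (f : ℝ[X]) : Prop := f = 0 ∨ ∀ z : ℂ, aeval z f = 0 → z.im = 0

/-- The linear maps that send all real-rooted polynomials with nonnegative coefficients to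
real-rooted polynomials: a test family, and a description of all such maps. -/
theorem result (T : ℝ[X] →ₗ[ℝ] ℝ[X]) :
    List.TFAE
      [∀ f : ℝ[X], RealRooted f → (∀ k, 0 ≤ f.coeff k) → RealRooted (T f),
       ∀ (a b c : ℕ) (u v : ℝ), 0 < u → 0 < v →
         RealRooted (T (X ^ a * (X + C u) ^ b * (X + C v) ^ c)),
       (∃ (α β : ℝ[X] →ₗ[ℝ] ℝ) (p q : ℝ[X]),
          (∀ z : ℂ, 0 < z.im → aeval z p + Complex.I * aeval z q ≠ 0) ∧
          ∀ f : ℝ[X], T f = α f • p + β f • q) ∨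
        ∃ (S : ℕ → ℝ[X] →ₗ[ℝ] ℝ[X]) (μ : ℕ → ℝ),
          (∀ m k : ℕ, m < k → S m (X ^ k) = 0) ∧
          (∀ m k j : ℕ, 0 ≤ (S m (X ^ k)).coeff j) ∧
          (∀ (m a b : ℕ) (v : ℝ), 0 < v → RealRooted (S m (X ^ a * (X + C v) ^ b))) ∧
          ∀ (f : ℝ[X]) (z : ℂ),
            Tendsto (fun m => aeval (z - (μ m : ℂ)) (S m f)) atTop (𝓝 (aeval z (T f)))] := by
  tfae_have 1 ↔ 2 := Pool.Agent.Variants.MP_7a4764_an.TestFamily.result T
  tfae_have 1 ↔ 3 := Pool.Agent.Results.MP_7a4764_an.Dichotomy.result T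
  tfae_finish

/-- Side remark, not part of `result`: no family `O` of regions for a complex parameter `w` makes
the one-block symbols, the complexification of `T` at `X ^ a * (X + w) ^ n` with `a` in a set `A`
that contains `0`, decide membership, even with the maps of real-rooted range allowed as
exceptions. -/
theorem no_symbol (A : Set ℕ) (hA : 0 ∈ A) (O : Set (Set ℂ)) : ¬ ∀ T : ℝ[X] →ₗ[ℝ] ℝ[X],
    ((∀ f : ℝ[X], RealRooted f → (∀ k, 0 ≤ f.coeff k) → RealRooted (T f)) ↔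
      ((∀ f : ℝ[X], RealRooted (T f)) ∨ ∃ W ∈ O, ∀ a ∈ A, ∀ n : ℕ, ∀ w ∈ W,
        (∀ z : ℂ, ∑ k ∈ Finset.range (n + 1),
          (n.choose k : ℂ) * w ^ (n - k) * aeval z (T (X ^ (a + k))) = 0) ∨
        ∀ z : ℂ, 0 < z.im → ∑ k ∈ Finset.range (n + 1),
          (n.choose k : ℂ) * w ^ (n - k) * aeval z (T (X ^ (a + k))) ≠ 0)) := by
  simpa only [RealRooted, ← Pool.Agent.Lib.MP_7a4764_an.splits_iff_im,
    Pool.Agent.Lib.MP_7a4764_an.H60.symb] using Pool.Agent.Lib.MP_7a4764_an.H60.no_symbol A hA O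

end Pool.Agent.Results.MP_7a4764_an.Characterization
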