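import Mathlib
import Pool.Agent.Lib.MP_7a4764_an.H60Main3
import Pool.Agent.Variants.MP_7a4764_an.TestFamily

set_option autoImplicit false

namespace Pool.Agent.Results.MP_7a4764_an.DenseTests

open Polynomial

/-- A real polynomial is real-rooted if it is zero or all its complex zeros are real. -/
def RealRooted (f : ℝ[X]) : Prop := f = 0 ∨ ∀ z : ℂ, aeval z f = 0 → z.im = 0

open Pool.Agent.Lib.MP_7a4764_an Pool.Agent.Lib.MP_7a4764_an.H60

/-- Choose for each exponent triple `(a, b, c)` a set `E a b c` of parameter pairs. These choices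
decide membership in the class (a linear map is in the class if and only if it sends the
polynomials `X ^ a * (X + u) ^ b * (X + v) ^ c` with `(u, v)` in `E a b c` and `0 < u < v` to
real-rooted polynomials) exactly when, for all `a` and all `b, c ≥ 1`, every pair with `0 < u < v`
lies in the closure of `E a b c`. -/
theorem result (E : ℕ → ℕ → ℕ → Set (ℝ × ℝ)) :
    (∀ T : ℝ[X] →ₗ[ℝ] ℝ[X],
      (∀ f : ℝ[X], RealRooted f → (∀ k, 0 ≤ f.coeff k) → RealRooted (T f)) ↔
      (∀ (a b c : ℕ) (u v : ℝ), (u, v) ∈ E a b c → 0 < u → u < v →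
        RealRooted (T (X ^ a * (X + C u) ^ b * (X + C v) ^ c)))) ↔
    ∀ (a b c : ℕ) (u v : ℝ), 1 ≤ b → 1 ≤ c → 0 < u → u < v → (u, v) ∈ closure (E a b c) := by
  constructor
  · intro h a₀ b₀ c₀ u₀ v₀ hb₀ hc₀ hu₀ huv₀
    by_contra hS
    have hv₀ : 0 < v₀ := hu₀.trans huv₀
    have b1 : (1 : ℝ) ≤ b₀ := by exact_mod_cast hb₀
    have c1 : (1 : ℝ) ≤ c₀ := by exact_mod_cast hc₀
    obtain ⟨τ, hτ⟩ : ∃ τ : ℝ, τ = 2 * (b₀ + c₀) * v₀ := ⟨_, rfl⟩
    have τ0 : 0 < τ := by rw [hτ]; positivity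
    have hlt : ∀ u v : ℝ, 0 < u → u < v →
        0 < τ / (τ + v) ∧ τ / (τ + v) < τ / (τ + u) ∧ τ / (τ + u) < 1 := fun u v hu huv =>
      ⟨div_pos τ0 (by linarith), div_lt_div_of_pos_left τ0 (by linarith) (by linarith),
        by rw [div_lt_one (by linarith)]; linarith⟩
    have hinv : ∀ u : ℝ, 0 < u → τ * (1 - τ / (τ + u)) / (τ / (τ + u)) = u := by
      intro u hu
      have : τ + u ≠ 0 := by linarith
      field_simp
      ring
    obtain ⟨l1, l2, l3⟩ := hlt u₀ v₀ hu₀ huv₀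
    obtain ⟨δ, hδ, hball⟩ : ∃ δ : ℝ, 0 < δ ∧ ∀ u v : ℝ, 0 < u → u < v → (u, v) ∈ E a₀ b₀ c₀ →
        δ ≤ |τ / (τ + u) - τ / (τ + u₀)| + |τ / (τ + v) - τ / (τ + v₀)| := by
      have hc : ContinuousAt (fun x : ℝ × ℝ => (τ * (1 - x.1) / x.1, τ * (1 - x.2) / x.2))
          (τ / (τ + u₀), τ / (τ + v₀)) :=
        (ContinuousAt.div (by fun_prop) continuousAt_fst (l1.trans l2).ne').prodMk
          (ContinuousAt.div (by fun_prop) continuousAt_snd l1.ne')
      have h1 := hc.preimage_mem_nhds (t := (closure (E a₀ b₀ c₀))ᶜ) (by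
        simp only [hinv u₀ hu₀, hinv v₀ hv₀]
        exact isClosed_closure.isOpen_compl.mem_nhds hS)
      obtain ⟨δ, hδ, h2⟩ := Metric.mem_nhds_iff.1 h1
      refine ⟨δ, hδ, fun u v hu huv hE => ?_⟩
      by_contra h3
      have h4 : (τ / (τ + u), τ / (τ + v)) ∈ Metric.ball (τ / (τ + u₀), τ / (τ + v₀)) δ := by
        rw [Metric.mem_ball, Prod.dist_eq, Real.dist_eq, Real.dist_eq, max_lt_iff]
        constructor
        · linarith [abs_nonneg (τ / (τ + v) - τ / (τ + v₀))]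
        · linarith [abs_nonneg (τ / (τ + u) - τ / (τ + u₀))]
      have h5 := h2 h4
      simp only [Set.mem_preimage, hinv u hu, hinv v (hu.trans huv)] at h5
      exact h5 (subset_closure hE)
    have hs : b₀ * (1 - τ / (τ + u₀)) + c₀ * (1 - τ / (τ + v₀)) ≤ 1 / 2 := by
      have h1 : 1 - τ / (τ + v₀) ≤ v₀ / τ := by
        rw [one_sub_div (by linarith), add_sub_cancel_left]
        exact div_le_div_of_nonneg_left hv₀.le τ0 (by linarith)
      have h2 : (b₀ + c₀) * (v₀ / τ) = 1 / 2 := by rw [hτ]; field_simp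
      have h3 := mul_le_mul_of_nonneg_left h1 (by linarith : (0 : ℝ) ≤ c₀)
      have h4 := mul_le_mul_of_nonneg_left (show 1 - τ / (τ + u₀) ≤ v₀ / τ by linarith)
        (by linarith : (0 : ℝ) ≤ b₀)
      linarith
    obtain ⟨α, β, M, K, h1, e1, e2, e3⟩ := exists_counter' a₀ b₀ c₀ hb₀ hc₀ l1 l2 l3 hs hδ
    let T₀ : ℝ[X] →ₗ[ℝ] ℝ[X] := (M + (2 * K) • α).smulRight (X ^ 2) +
      ((2 * (2 * K)) • β).smulRight X + (M - (2 * K) • α).smulRight 1
    have hT : ∀ f, T₀ f = C (M f + 2 * K * α f) * X ^ 2 + C (2 * (2 * K * β f)) * X +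
        C (M f - 2 * K * α f) := by
      intro f
      simp only [T₀, LinearMap.add_apply, LinearMap.smulRight_apply, LinearMap.smul_apply,
        LinearMap.sub_apply, smul_eq_mul, smul_eq_C_mul, mul_one, mul_assoc]
    let T : ℝ[X] →ₗ[ℝ] ℝ[X] := T₀ ∘ₗ (aeval (C τ * X : ℝ[X]) : ℝ[X] →ₐ[ℝ] ℝ[X]).toLinearMap
    have hL : ∀ u : ℝ, 0 < u → (C τ * X + C u : ℝ[X]) = C (τ + u) * L (τ / (τ + u)) := by
      intro u hu
      have h0 : τ + u ≠ 0 := by linarith
      rw [L, mul_add, ← mul_assoc, ← C_mul, ← C_mul, mul_div_cancel₀ _ h0, one_sub_div h0,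
        mul_div_cancel₀ _ h0, add_sub_cancel_left]
    have hTe : ∀ (a b c : ℕ) (u v : ℝ), 0 < u → 0 < v →
        T (X ^ a * (X + C u) ^ b * (X + C v) ^ c) = C (τ ^ a * (τ + u) ^ b * (τ + v) ^ c) *
          T₀ (X ^ a * L (τ / (τ + u)) ^ b * L (τ / (τ + v)) ^ c) := by
      intro a b c u v hu hv
      rw [C_mul', ← map_smul]
      change T₀ (aeval (C τ * X : ℝ[X]) (X ^ a * (X + C u) ^ b * (X + C v) ^ c)) = _
      congr 1
      simp only [map_mul, map_pow, map_add, aeval_X, aeval_C, algebraMap_eq]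
      rw [hL u hu, hL v hv, smul_eq_C_mul]
      simp only [map_mul, map_pow]
      ring
    have h2 := (h T).2 (fun a b c u v habc hu huv => by
      obtain ⟨k1, k2, k3⟩ := hlt u v hu huv
      have h3 := h1 a b c _ _ k1.le k2.le k3.le (by
        by_cases h4 : (a, b, c) = (a₀, b₀, c₀)
        · obtain ⟨rfl, rfl, rfl⟩ := h4
          exact Or.inr (hball u v hu huv habc)
        · exact Or.inl h4)
      refine splits_iff_im.1 ?_
      rw [hTe a b c u v hu (hu.trans huv), hT]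
      refine (Splits.C _).mul (splits_quad ?_)
      set g := (X ^ a * L (τ / (τ + u)) ^ b * L (τ / (τ + v)) ^ c : ℝ[X])
      have h4 : |M g| ^ 2 ≤ (K * (|α g| + |β g|)) ^ 2 := pow_le_pow_left₀ (abs_nonneg _) h3 2
      have h5 : (|α g| + |β g|) ^ 2 ≤ 4 * (α g ^ 2 + β g ^ 2) := by
        nlinarith [sq_abs (α g), sq_abs (β g), sq_nonneg (|α g| - |β g|), sq_nonneg (α g),
          sq_nonneg (β g)]
      have h6 := mul_le_mul_of_nonneg_left h5 (sq_nonneg K)
      rw [sq_abs, mul_pow] at h4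
      nlinarith)
    have h3 := h2 (X ^ a₀ * (X + C u₀) ^ b₀ * (X + C v₀) ^ c₀) (splits_iff_im.1
      (((Splits.X_pow a₀).mul ((Splits.X_add_C u₀).pow b₀)).mul ((Splits.X_add_C v₀).pow c₀)))
      (coeff_mul_nonneg (coeff_mul_nonneg (coeff_pow_nonneg
        (fun k => by simpa using coeff_X_add_C_nonneg le_rfl k) a₀)
        (coeff_pow_nonneg (coeff_X_add_C_nonneg hu₀.le) b₀))
        (coeff_pow_nonneg (coeff_X_add_C_nonneg hv₀.le) c₀))
    rw [hTe a₀ b₀ c₀ u₀ v₀ hu₀ hv₀, hT, e1, e2] at h3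
    rcases h3 with h3 | h3
    · have h4 := congrArg (fun f : ℝ[X] => f.eval 0) h3
      simp only [eval_mul, eval_C, eval_add, eval_pow, eval_X, eval_zero] at h4
      have h5 : 0 < τ ^ a₀ * (τ + u₀) ^ b₀ * (τ + v₀) ^ c₀ := by positivity
      exact e3 (by simpa using (mul_eq_zero.1 h4).resolve_left h5.ne')
    · have := h3 Complex.I (by simp)
      simp at this
  · intro hS T
    refine (Variants.MP_7a4764_an.TestFamily.result T).trans
      ⟨fun h a b c u v _ hu huv => h a b c u v hu (hu.trans huv), fun h' => ?_⟩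
    have h : ∀ (a b c : ℕ) (u v : ℝ), 1 ≤ b → 1 ≤ c → 0 < u → u < v →
        (T (X ^ a * (X + C u) ^ b * (X + C v) ^ c)).Splits := by
      intro a b c u v hb hc hu huv
      have ho : IsOpen {x : ℝ × ℝ | 0 < x.1 ∧ x.1 < x.2} :=
        (isOpen_lt continuous_const continuous_fst).inter (isOpen_lt continuous_fst continuous_snd)
      have h1 := ho.inter_closure ⟨⟨hu, huv⟩, hS a b c u v hb hc hu huv⟩
      have h2 : {x : ℝ × ℝ | 0 < x.1 ∧ x.1 < x.2} ∩ E a b c ⊆
          {x : ℝ × ℝ | (T (X ^ a * (X + C x.1) ^ b * (X + C x.2) ^ c)).Splits} := by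
        intro x hx
        rw [Set.mem_ofPred_eq, splits_iff_im]
        exact h' a b c x.1 x.2 hx.2 hx.1.1 hx.1.2
      have h3 := closure_minimal h2 (isClosed_test T a b c) h1
      rwa [Set.mem_ofPred_eq] at h3
    have h1 : ∀ (a b : ℕ) (v : ℝ), 1 ≤ b → 0 < v → (T (X ^ a * (X + C v) ^ b)).Splits := by
      intro a b v hb hv
      refine splits_of_ray (A := T (X ^ a * (X + C v) ^ b * X)) (w₀ := v) fun w hw => ?_
      have := h a b 1 v w hb le_rfl hv hw
      rwa [pow_one, mul_add, map_add, mul_comm _ (C w), C_mul', map_smul] at this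
    have h2 : ∀ (a b : ℕ) (v : ℝ), 0 < v → (T (X ^ a * (X + C v) ^ b)).Splits := by
      intro a b v hv
      rcases Nat.eq_zero_or_pos b with rfl | hb
      · rw [pow_zero, mul_one]
        refine splits_of_ray (A := T (X ^ a * X)) (w₀ := 0) fun w hw => ?_
        have := h1 a 1 w le_rfl hw
        rwa [pow_one, mul_add, map_add, mul_comm _ (C w), C_mul', map_smul] at this
      · exact h1 a b v hb hv
    intro a b c u v hu hv
    refine splits_iff_im.1 ?_
    rcases Nat.eq_zero_or_pos b with rfl | hb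
    · simpa using h2 a c v hv
    rcases Nat.eq_zero_or_pos c with rfl | hc
    · simpa using h2 a b u hu
    rcases lt_trichotomy u v with huv | rfl | huv
    · exact h a b c u v hb hc hu huv
    · rw [mul_assoc, ← pow_add]; exact h2 a (b + c) u hu
    · rw [mul_right_comm]; exact h a c b v u hc hb hv huv

end Pool.Agent.Results.MP_7a4764_an.DenseTests
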