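import Mathlib
import Pool.Agent.Lib.MP_7a4764_an.H57Clopen

set_option autoImplicit false

namespace Pool.Agent.Results.MP_7a4764_an.OnePoint

open Polynomial

/-- A real polynomial is real-rooted if it is zero or all its complex zeros are real. -/
def RealRooted (f : ℝ[X]) : Prop := f = 0 ∨ ∀ z : ℂ, aeval z f = 0 → z.im = 0

open Pool.Agent.Lib.MP_7a4764_an Pool.Agent.Lib.MP_7a4764_an.H57

/-- Fix a nonreal number `z₀`. A linear map sends all real-rooted polynomials with nonnegative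
coefficients to real-rooted polynomials if and only if it does so for the polynomials
`X ^ a * (X + v) ^ b`, and no nonzero image of a polynomial `X ^ a * (X + u) ^ b * (X + v) ^ c`
vanishes at the single point `z₀`. -/
theorem result (z₀ : ℂ) (hz₀ : z₀.im ≠ 0) (T : ℝ[X] →ₗ[ℝ] ℝ[X]) :
    (∀ f : ℝ[X], RealRooted f → (∀ k, 0 ≤ f.coeff k) → RealRooted (T f)) ↔
    ((∀ (a b : ℕ) (v : ℝ), 0 < v → RealRooted (T (X ^ a * (X + C v) ^ b))) ∧
      ∀ (a b c : ℕ) (u v : ℝ), 0 < b → 0 < c → 0 < u → u < v →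
        aeval z₀ (T (X ^ a * (X + C u) ^ b * (X + C v) ^ c)) = 0 →
        T (X ^ a * (X + C u) ^ b * (X + C v) ^ c) = 0) := by
  constructor
  · intro h
    have key : ∀ (a b c : ℕ) (u v : ℝ), 0 < u → 0 < v →
        RealRooted (T (X ^ a * (X + C u) ^ b * (X + C v) ^ c)) := by
      intro a b c u v hu hv
      refine h _ (splits_iff_im.1 ?_) ?_
      · exact ((Splits.X_pow a).mul ((Splits.X_add_C u).pow b)).mul ((Splits.X_add_C v).pow c)
      · refine coeff_mul_nonneg (coeff_mul_nonneg (coeff_pow_nonneg (fun k => ?_) a)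
          (coeff_pow_nonneg (coeff_X_add_C_nonneg hu.le) b))
          (coeff_pow_nonneg (coeff_X_add_C_nonneg hv.le) c)
        simpa using coeff_X_add_C_nonneg le_rfl k
    refine ⟨fun a b v hv => by simpa using key a 0 b v v hv hv, fun a b c u v _ _ hu huv h0 => ?_⟩
    exact (key a b c u v hu (hu.trans huv)).resolve_right (fun h1 => hz₀ (h1 z₀ h0))
  · rintro ⟨h₁, h₂⟩ f hf hc
    have h₃ : ∀ (a b : ℕ) (v : ℝ), 0 < v → ∀ z : ℂ, z.im ≠ 0 →
        aeval z (T (X ^ a * (X + C v) ^ b)) = 0 → T (X ^ a * (X + C v) ^ b) = 0 :=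
      fun a b v hv z hz h0 => (h₁ a b v hv).resolve_right (fun h1 => hz (h1 z h0))
    have h₄ : ∀ (a b c : ℕ) (u v : ℝ), 0 < u → 0 < v →
        aeval z₀ (T (X ^ a * (X + C u) ^ b * (X + C v) ^ c)) = 0 →
        T (X ^ a * (X + C u) ^ b * (X + C v) ^ c) = 0 := by
      intro a b c u v hu hv
      rcases Nat.eq_zero_or_pos b with rfl | hb
      · simpa using h₃ a c v hv z₀ hz₀
      rcases Nat.eq_zero_or_pos c with rfl | hc
      · simpa using h₃ a b u hu z₀ hz₀
      rcases lt_trichotomy u v with huv | rfl | huv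
      · exact h₂ a b c u v hb hc hu huv
      · rw [mul_assoc, ← pow_add]; exact h₃ a (b + c) u hu z₀ hz₀
      · rw [mul_right_comm]; exact h₂ a c b v u hc hb hv huv
    have hconj : ∀ (n : ℕ) (z : ℂ), z ∈ Zo T n → (starRingEnd ℂ) z ∈ Zo T n := by
      rintro n z ⟨g, hg, h1, h2⟩
      exact ⟨g, hg, h1, by rw [aeval_conj, h2, map_zero]⟩
    have hI : ∀ n : ℕ, z₀ ∉ Zo T n := by
      rintro n ⟨g, hg, hTg, hg0⟩
      let ev : ℝ[X] →ₗ[ℝ] ℂ := (aeval z₀ : ℝ[X] →ₐ[ℝ] ℂ).toLinearMap ∘ₗ T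
      have hev : ev g = 0 := hg0
      obtain ⟨a, b, c, u, v, -, hu, hv, e₁, e₂, e₃⟩ :=
        slice (Complex.reLm ∘ₗ ev) (Complex.imLm ∘ₗ ev) (lcoeff ℝ (T g).natDegree ∘ₗ T) hg
          (by simp [hev]) (by simp [hev]) (leadingCoeff_ne_zero.2 hTg)
      exact e₃ (by simp [h₄ a b c u v hu hv (Complex.ext e₁ e₂)])
    have hup : ∀ (n : ℕ) (z : ℂ), 0 < z.im → z ∉ Zo T n := by
      intro n z hz
      have h₅ := fun (a b : ℕ) (v : ℝ) (hv : 0 < v) (w : ℂ) (hw : 0 < w.im) => h₃ a b v hv w hw.ne'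
      rcases lt_or_gt_of_ne hz₀ with h | h
      · refine not_mem_Zo T n h₅ (z₀ := (starRingEnd ℂ) z₀) (by simpa using h) (fun h1 => ?_) hz
        exact hI n (by simpa using hconj n _ h1)
      · exact not_mem_Zo T n h₅ h (hI n) hz
    by_cases hT : T f = 0
    · exact Or.inl hT
    refine Or.inr fun z hz => ?_
    have h0 : f ≠ 0 := by rintro rfl; simp at hT
    obtain ⟨g, hg, hfg⟩ := exists_D (splits_iff_im.2 hf) hc h0 le_rfl
    have h1 : f.eval 1 ≠ 0 := (eval_pos_of_coeff_nonneg hc h0 one_pos).ne'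
    have hTf : T f = f.eval 1 • T g := by
      conv_lhs => rw [hfg, C_mul', map_smul]
    have hZ : z ∈ Zo T f.natDegree := by
      refine ⟨g, hg, fun h2 => hT (by rw [hTf, h2, smul_zero]), ?_⟩
      rw [hTf, map_smul, smul_eq_zero] at hz
      exact hz.resolve_left h1
    rcases lt_trichotomy z.im 0 with h | h | h
    · exact absurd (hconj _ z hZ) (hup _ _ (by simpa using h))
    · exact h
    · exact absurd hZ (hup _ _ h)

end Pool.Agent.Results.MP_7a4764_an.OnePoint
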